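import Pool.Agent.Lib.MP_846550_an.Final
import Pool.Agent.Lib.MP_846550_an.Defs

set_option autoImplicit false

open Filter Topology Polynomial

namespace Pool.Agent.Results.MP_846550_an.CommutingBAP

open Pool.Agent.Lib.MP_846550_an

/-- Pointwise convergent sequences of operators on a Banach space are bounded. -/
theorem bdd {𝕜 : Type*} [RCLike 𝕜] {E : Type*} [NormedAddCommGroup E] [NormedSpace 𝕜 E]
    [CompleteSpace E] (T : ℕ → E →L[𝕜] E) (h : ∀ y, Tendsto (fun k => T k y) atTop (𝓝 y)) :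
    ∃ C : ℝ, ∀ k, ‖T k‖ ≤ C := by
  apply banach_steinhaus
  intro y
  obtain ⟨C, hC⟩ := (Metric.isBounded_range_of_tendsto _ (h y)).exists_norm_le
  exact ⟨C, fun i => hC _ ⟨i, rfl⟩⟩

/-- **Strongly series summable M-bases and the commuting bounded approximation property.** -/
theorem result :
    (∀ (E : Type) [NormedAddCommGroup E] [NormedSpace ℂ E] [CompleteSpace E],
      ¬ FiniteDimensional ℂ E →
      (HasSSMBasis ℂ E ↔ ∃ T, IsCommutingApprox ℂ E T)) ∧
    (∀ (𝕜 : Type) [RCLike 𝕜] (E : Type) [NormedAddCommGroup E] [NormedSpace 𝕜 E]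
      [CompleteSpace E], ¬ FiniteDimensional 𝕜 E →
      (HasSSMBasis 𝕜 E ↔ ∃ T, IsCommutingApprox 𝕜 E T ∧ ∀ k, IsSplit 𝕜 E (T k))) := by
  constructor
  · intro E _ _ _ hE
    constructor
    · rintro ⟨x, f, hfx, _, _, lam, _, hlim⟩
      obtain ⟨T, h1, h2, h3, _⟩ := backward x f hfx lam hlim
      exact ⟨T, bdd T h3, h1, h2, h3⟩
    · rintro ⟨T, _, h1, h2, h3⟩
      exact forward hE T h1 h2 h3 (fun k => split_of_complex (T k) (h1 k))
  · intro 𝕜 _ E _ _ _ hE
    constructor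
    · rintro ⟨x, f, hfx, _, _, lam, _, hlim⟩
      obtain ⟨T, h1, h2, h3, h4⟩ := backward x f hfx lam hlim
      exact ⟨T, ⟨bdd T h3, h1, h2, h3⟩, h4⟩
    · rintro ⟨T, ⟨_, h1, h2, h3⟩, h4⟩
      exact forward hE T h1 h2 h3 h4

end Pool.Agent.Results.MP_846550_an.CommutingBAP
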