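import Pool.Agent.Lib.MP_846550_an.R8

set_option autoImplicit false

namespace Pool.Agent.Results.MP_846550_an.RealCommutingBAP

open Pool.Agent.Lib.MP_846550_an

/-- **Real spaces: strongly series summable M-bases and the commuting BAP.** -/
theorem result (E : Type) [NormedAddCommGroup E] [NormedSpace ℝ E] [CompleteSpace E]
    (h : HasSymmetricSystems E ∨
      ∃ (p : ENNReal) (_ : Fact (1 ≤ p)), HasComplementedLp p E) :
    HasSSMBasis ℝ E ↔ ∃ T, IsCommutingApprox ℝ E T := by
  rcases h with h | ⟨p, hp, h⟩
  · exact real_iff E h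
  · exact real_iff E (symmetric_of_lp p E h)

end Pool.Agent.Results.MP_846550_an.RealCommutingBAP
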